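import Pool.Agent.Helper51.BS.Defs

/-!
# Small deformations of a triangulation of the cube

The piecewise linear map `f` with `f v = lab v` at the vertices moves no point off its face of the
cube. For small `t > 0` the map `x ↦ x + t (f x - x)` is a bijection of the cube, so the deformed
simplices cover the cube with null overlaps.
-/

set_option autoImplicit false

namespace Helper67.BS

open Helper67.Cube Helper51.BS MeasureTheory Set Filter Topology

variable {d N : ℕ}

/-- an affine map with prescribed values at the vertices of a simplex -/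
lemma exists_aff {w : Fin (d+1) → Fin d → ℝ} (hw : AffineIndependent ℝ w)
    (l : Fin (d+1) → Fin d → ℝ) :
    ∃ (A : (Fin d → ℝ) →L[ℝ] (Fin d → ℝ)) (c : Fin d → ℝ), ∀ i, A (w i) + c = l i := by
  have htop : affineSpan ℝ (range w) = ⊤ := by
    rw [hw.affineSpan_eq_top_iff_card_eq_finrank_add_one]
    simp
  let b : AffineBasis (Fin (d+1)) ℝ (Fin d → ℝ) := ⟨w, hw, htop⟩
  refine ⟨LinearMap.toContinuousLinearMap
    (∑ i, (LinearMap.toSpanSingleton ℝ (Fin d → ℝ) (l i)).comp (b.coord i).linear),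
    ∑ i, b.coord i 0 • l i, fun j => ?_⟩
  rw [LinearMap.coe_toContinuousLinearMap', LinearMap.sum_apply, ← Finset.sum_add_distrib]
  have h1 : ∀ i, (LinearMap.toSpanSingleton ℝ (Fin d → ℝ) (l i)).comp (b.coord i).linear (w j) +
      b.coord i 0 • l i = (b.coord i (b j)) • l i := by
    intro i
    rw [LinearMap.comp_apply, LinearMap.toSpanSingleton_apply, ← add_smul]
    congr 1
    have h2 := congrFun (AffineMap.decomp (b.coord i)) (w j)
    rw [Pi.add_apply] at h2
    exact h2.symm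
  rw [Finset.sum_congr rfl fun i _ => h1 i]
  simp only [AffineBasis.coord_apply, ite_smul, one_smul, zero_smul, Finset.sum_ite_eq',
    Finset.mem_univ, if_true]

/-- affine combinations -/
lemma aff_sum {ι : Type*} [Fintype ι] (A : (Fin d → ℝ) →L[ℝ] (Fin d → ℝ)) (c : Fin d → ℝ)
    (t : ι → ℝ) (w : ι → Fin d → ℝ) (h : ∑ i, t i = 1) :
    A (∑ i, t i • w i) + c = ∑ i, t i • (A (w i) + c) := by
  rw [map_sum]
  simp only [map_smul, smul_add, Finset.sum_add_distrib]
  rw [← Finset.sum_smul, h, one_smul]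

lemma convex_eq (A B : (Fin d → ℝ) →L[ℝ] (Fin d → ℝ)) (c e : Fin d → ℝ) :
    Convex ℝ {x | A x + c = B x + e} := by
  intro x hx y hy a b ha hb hab
  change A x + c = B x + e at hx
  change A y + c = B y + e at hy
  change A (a • x + b • y) + c = B (a • x + b • y) + e
  have h1 : ∀ (C : (Fin d → ℝ) →L[ℝ] (Fin d → ℝ)) (g : Fin d → ℝ),
      C (a • x + b • y) + g = a • (C x + g) + b • (C y + g) := by
    intro C g
    have h2 : g = a • g + b • g := by rw [← add_smul, hab, one_smul]
    rw [map_add, map_smul, map_smul]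
    conv_lhs => rw [h2]
    module
  rw [h1, h1, hx, hy]

lemma lab_one {v : Fin d → ℝ} {j : Fin d} (h : v j = 1) : lab v j = 1 := by
  unfold lab; rw [if_pos h]

lemma lab_zero {v : Fin d → ℝ} {j : Fin d} (h : v j = 0) : lab v j = 0 := by
  unfold lab; rw [if_neg]; rw [h]; norm_num

lemma lab_mem (v : Fin d → ℝ) (j : Fin d) : 0 ≤ lab v j ∧ lab v j ≤ 1 := by
  unfold lab; split_ifs <;> norm_num

/-- combinations of points of a facet -/
lemma face_one {w : Fin (d+1) → Fin d → ℝ} (hw : InUnit w) {t : Fin (d+1) → ℝ}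
    (ht : ∀ i, 0 ≤ t i) (hs : ∑ i, t i = 1) {j : Fin d} (h : (∑ i, t i • w i) j = 1) :
    (∑ i, t i • lab (w i)) j = 1 := by
  rw [Finset.sum_apply] at h ⊢
  simp only [Pi.smul_apply, smul_eq_mul] at h ⊢
  have h2 : ∑ i, t i * (1 - w i j) = 0 := by
    simp only [mul_sub, mul_one, Finset.sum_sub_distrib, hs, h, sub_self]
  have h3 := (Finset.sum_eq_zero_iff_of_nonneg (fun i _ => mul_nonneg (ht i)
    (sub_nonneg.2 (hw i j).2))).1 h2
  rw [← hs]
  refine Finset.sum_congr rfl fun i hi => ?_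
  rcases mul_eq_zero.1 (h3 i hi) with h4 | h4
  · rw [h4, zero_mul]
  · rw [lab_one (by linarith), mul_one]

lemma face_zero {w : Fin (d+1) → Fin d → ℝ} (hw : InUnit w) {t : Fin (d+1) → ℝ}
    (ht : ∀ i, 0 ≤ t i) {j : Fin d} (h : (∑ i, t i • w i) j = 0) :
    (∑ i, t i • lab (w i)) j = 0 := by
  rw [Finset.sum_apply] at h ⊢
  simp only [Pi.smul_apply, smul_eq_mul] at h ⊢
  have h3 := (Finset.sum_eq_zero_iff_of_nonneg (fun i _ => mul_nonneg (ht i) (hw i j).1)).1 h
  refine Finset.sum_eq_zero fun i hi => ?_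
  rcases mul_eq_zero.1 (h3 i hi) with h4 | h4
  · rw [h4, zero_mul]
  · rw [lab_zero h4, mul_zero]

/-- The piecewise linear map of a triangulation. -/
theorem exists_map {W : Fin N → Fin (d+1) → Fin d → ℝ} (hW : IsTriangulation W) :
    ∃ (A : Fin N → (Fin d → ℝ) →L[ℝ] (Fin d → ℝ)) (c : Fin N → Fin d → ℝ)
      (f : (Fin d → ℝ) → Fin d → ℝ),
      (∀ s i, A s (W s i) + c s = lab (W s i)) ∧
      ∀ s, ∀ x ∈ body (W s), f x = A s x + c s := by
  classical
  have hex := fun s => exists_aff (hW.1.1.1 s) (fun i => lab (W s i))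
  choose A c hA using hex
  have hag : ∀ s s', ∀ x ∈ body (W s), x ∈ body (W s') → A s x + c s = A s' x + c s' := by
    intro s s' x hx hx'
    have h1 : x ∈ convexHull ℝ (range (W s) ∩ range (W s')) := by
      rw [← hW.2 s s']; exact ⟨hx, hx'⟩
    refine convexHull_min ?_ (convex_eq (A s) (A s') (c s) (c s')) h1
    rintro _ ⟨⟨i, rfl⟩, ⟨i', hi'⟩⟩
    change A s (W s i) + c s = A s' (W s i) + c s'
    rw [hA s i, ← hi', hA s' i']
  refine ⟨A, c, fun x => if h : ∃ s, x ∈ body (W s) then A h.choose x + c h.choose else x, hA,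
    fun s x hx => ?_⟩
  have h : ∃ s, x ∈ body (W s) := ⟨s, hx⟩
  beta_reduce
  rw [dif_pos h]
  exact hag _ _ _ h.choose_spec hx

/-- one-dimensional estimate -/
lemma line_bound {E : Type*} [NormedAddCommGroup E] {h : ℝ → E} {C : ℝ}
    (hloc : ∀ x ∈ Icc (0:ℝ) 1, ∀ᶠ z in 𝓝[Icc 0 1] x, ‖h z - h x‖ ≤ C * |z - x|) :
    ‖h 1 - h 0‖ ≤ C := by
  have hcont : ContinuousOn h (Icc 0 1) := by
    intro x hx
    rw [ContinuousWithinAt, tendsto_iff_norm_sub_tendsto_zero]
    refine squeeze_zero' (Eventually.of_forall fun _ => norm_nonneg _) (hloc x hx) ?_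
    have h1 : Tendsto (fun z : ℝ => C * |z - x|) (𝓝 x) (𝓝 (C * |x - x|)) :=
      ((continuous_const.mul ((continuous_id.sub continuous_const).abs)).tendsto x)
    rw [sub_self, abs_zero, mul_zero] at h1
    exact h1.mono_left nhdsWithin_le_nhds
  set S : Set ℝ := {x | ‖h x - h 0‖ ≤ C * x} with hS
  have hcl : IsClosed (S ∩ Icc 0 1) := by
    have h1 : S ∩ Icc 0 1 = {x | x ∈ Icc (0:ℝ) 1 ∧ ‖h x - h 0‖ ≤ C * x} := by
      ext x; simp only [hS, mem_inter_iff, mem_ofPred_eq]; tauto
    rw [h1]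
    exact isClosed_Icc.isClosed_le ((hcont.sub continuousOn_const).norm)
      (continuousOn_const.mul continuousOn_id)
  have h0 : (0:ℝ) ∈ S := by
    change ‖h 0 - h 0‖ ≤ C * 0
    simp
  have hsub := hcl.Icc_subset_of_forall_exists_gt h0 (fun x hx y hy => by
    obtain ⟨hxS, hx0, hx1⟩ := hx
    have h2 := hloc x ⟨hx0, hx1.le⟩
    rw [eventually_nhdsWithin_iff] at h2
    have h3 : ∀ᶠ z in 𝓝[>] x, ‖h z - h x‖ ≤ C * |z - x| := by
      have h4 : ∀ᶠ z in 𝓝[>] x, z ∈ Icc (0:ℝ) 1 → ‖h z - h x‖ ≤ C * |z - x| :=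
        h2.filter_mono nhdsWithin_le_nhds
      have h5 : ∀ᶠ z in 𝓝[>] x, z ∈ Ioc x 1 := Ioc_mem_nhdsGT hx1
      filter_upwards [h4, h5] with z h6 h7
      exact h6 ⟨by linarith [h7.1], h7.2⟩
    have h5 : ∀ᶠ z in 𝓝[>] x, z ∈ Ioc x y := Ioc_mem_nhdsGT hy
    obtain ⟨z, hz1, hz2⟩ := (h3.and h5).exists
    refine ⟨z, ?_, hz2⟩
    change ‖h z - h 0‖ ≤ C * z
    have hxS' : ‖h x - h 0‖ ≤ C * x := hxS
    rw [abs_of_pos (by linarith [hz2.1])] at hz1
    calc ‖h z - h 0‖ ≤ ‖h z - h x‖ + ‖h x - h 0‖ := norm_sub_le_norm_sub_add_norm_sub _ _ _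
      _ ≤ C * (z - x) + C * x := add_le_add hz1 hxS'
      _ = C * z := by ring)
  have h1 : (1:ℝ) ∈ S := hsub ⟨zero_le_one, le_rfl⟩
  have h2 : ‖h 1 - h 0‖ ≤ C * 1 := h1
  rwa [mul_one] at h2

/-- a function on a convex set with local slopes at most `C` -/
lemma lip_of_local {K : Set (Fin d → ℝ)} (hK : Convex ℝ K) {f : (Fin d → ℝ) → Fin d → ℝ} {C : ℝ}
    (hloc : ∀ x ∈ K, ∀ᶠ y in 𝓝[K] x, ‖f y - f x‖ ≤ C * ‖y - x‖) {x y : Fin d → ℝ}
    (hx : x ∈ K) (hy : y ∈ K) : ‖f y - f x‖ ≤ C * ‖y - x‖ := by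
  have h1 := line_bound (h := fun t : ℝ => f (x + t • (y - x))) (C := C * ‖y - x‖) ?_
  · simpa using h1
  · intro t ht
    have hmem : ∀ u ∈ Icc (0:ℝ) 1, x + u • (y - x) ∈ K := by
      intro u hu
      exact hK.add_smul_sub_mem hx hy hu
    have hc : ContinuousWithinAt (fun t : ℝ => x + t • (y - x)) (Icc 0 1) t :=
      (Continuous.continuousWithinAt (by fun_prop))
    have h2 : Tendsto (fun t : ℝ => x + t • (y - x)) (𝓝[Icc 0 1] t)
        (𝓝[K] (x + t • (y - x))) :=
      tendsto_nhdsWithin_iff.2 ⟨hc, eventually_nhdsWithin_of_forall hmem⟩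
    filter_upwards [h2.eventually (hloc _ (hmem t ht))] with u hu
    refine hu.trans (le_of_eq ?_)
    have h3 : x + u • (y - x) - (x + t • (y - x)) = (u - t) • (y - x) := by module
    rw [h3, norm_smul, Real.norm_eq_abs]
    ring

/-- projection onto the cube -/
noncomputable def P (x : Fin d → ℝ) : Fin d → ℝ := fun j => max 0 (min 1 (x j))

lemma P_mem (x : Fin d → ℝ) : P x ∈ cube d := fun _ =>
  ⟨le_max_left _ _, max_le zero_le_one (min_le_left _ _)⟩

lemma P_eq {x : Fin d → ℝ} (hx : x ∈ cube d) : P x = x := by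
  ext j
  unfold P
  rw [min_eq_right (hx j).2, max_eq_right (hx j).1]

lemma P_lip (x y : Fin d → ℝ) : ‖P x - P y‖ ≤ ‖x - y‖ := by
  rw [pi_norm_le_iff_of_nonneg (norm_nonneg _)]
  intro j
  refine le_trans ?_ (norm_le_pi_norm (x - y) j)
  rw [Real.norm_eq_abs, Real.norm_eq_abs, Pi.sub_apply, Pi.sub_apply]
  unfold P
  have h1 : |max 0 (min 1 (x j)) - max 0 (min 1 (y j))| ≤ |min 1 (x j) - min 1 (y j)| := by
    have := abs_max_sub_max_le_max 0 (min 1 (x j)) 0 (min 1 (y j))
    simpa using this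
  have h2 : |min 1 (x j) - min 1 (y j)| ≤ |x j - y j| := by
    have := abs_min_sub_min_le_max 1 (x j) 1 (y j)
    simpa using this
  exact h1.trans h2

/-- the moved point has the same barycentric coordinates in the moved simplex -/
lemma mv_sum {A : (Fin d → ℝ) →L[ℝ] (Fin d → ℝ)} {c : Fin d → ℝ} {w l : Fin (d+1) → Fin d → ℝ}
    (hA : ∀ i, A (w i) + c = l i) {t : ℝ} {τ : Fin (d+1) → ℝ} (h1 : ∑ i, τ i = 1) :
    ∑ i, τ i • mv w l t i =
      ∑ i, τ i • w i + t • ((A (∑ i, τ i • w i) + c) - ∑ i, τ i • w i) := by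
  rw [aff_sum A c τ w h1]
  simp only [hA]
  unfold mv
  rw [← Finset.sum_sub_distrib, Finset.smul_sum, ← Finset.sum_add_distrib]
  refine Finset.sum_congr rfl fun i _ => ?_
  module

/-- Small deformations of a triangulation of the cube cover the cube with null overlaps. -/
theorem small {W : Fin N → Fin (d+1) → Fin d → ℝ} (hW : IsTriangulation W) :
    ∃ ε > 0, ∀ t : ℝ, 0 < t → t < ε →
      (⋃ s, body (mv (W s) (fun i => lab (W s i)) t)) = cube d ∧
      ∀ s s', s ≠ s' → volume (body (mv (W s) (fun i => lab (W s i)) t) ∩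
        body (mv (W s') (fun i => lab (W s' i)) t)) = 0 := by
  classical
  obtain ⟨A, c, f, hA, hf⟩ := exists_map hW
  have hU : ∀ s, InUnit (W s) := hW.1.1.inUnit
  have hcov : ∀ x ∈ cube d, ∃ s, x ∈ body (W s) := by
    intro x hx
    rw [← hW.1.1.2] at hx
    exact mem_iUnion.1 hx
  have hsub : ∀ s, body (W s) ⊆ cube d := fun s => body_subset_cube (hU s)
  obtain ⟨C, hC0, hC⟩ : ∃ C : ℝ, 0 ≤ C ∧ ∀ s, ‖A s‖ ≤ C :=
    ⟨∑ s, ‖A s‖, Finset.sum_nonneg fun _ _ => norm_nonneg _,
      fun s => Finset.single_le_sum (f := fun s => ‖A s‖) (fun _ _ => norm_nonneg _)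
        (Finset.mem_univ s)⟩
  have hloc : ∀ x ∈ cube d, ∀ᶠ y in 𝓝[cube d] x, ‖f y - f x‖ ≤ C * ‖y - x‖ := by
    intro x hx
    have h1 : ∀ᶠ y in 𝓝 x, ∀ s, x ∉ body (W s) → y ∉ body (W s) := by
      rw [eventually_all]
      intro s
      by_cases h : x ∈ body (W s)
      · exact Eventually.of_forall fun y h' => absurd h h'
      · filter_upwards [(isClosed_body (W s)).isOpen_compl.mem_nhds h] with y hy _
        exact hy
    filter_upwards [mem_nhdsWithin_of_mem_nhds h1, self_mem_nhdsWithin] with y hy hyc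
    obtain ⟨s, hs⟩ := hcov y hyc
    have hxs : x ∈ body (W s) := by
      by_contra h
      exact hy s h hs
    rw [hf s y hs, hf s x hxs, add_sub_add_right_eq_sub, ← map_sub]
    exact (A s).le_of_opNorm_le (hC s) (y - x)
  have hconv : Convex ℝ (cube d) := by rw [cube_eq]; exact convex_Icc 0 1
  have hlip : ∀ x ∈ cube d, ∀ y ∈ cube d, ‖f y - f x‖ ≤ C * ‖y - x‖ :=
    fun x hx y hy => lip_of_local hconv hloc hx hy
  have hrep : ∀ s, ∀ x ∈ body (W s), ∃ τ : Fin (d+1) → ℝ, (∀ i, 0 ≤ τ i) ∧ ∑ i, τ i = 1 ∧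
      ∑ i, τ i • W s i = x ∧ ∑ i, τ i • lab (W s i) = f x := by
    intro s x hx
    have hx' := hx
    unfold body at hx'
    rw [mem_hull_range] at hx'
    obtain ⟨τ, h0, h1, h2⟩ := hx'
    refine ⟨τ, h0, h1, h2, ?_⟩
    rw [hf s x hx, ← h2, aff_sum (A s) (c s) τ (W s) h1]
    exact Finset.sum_congr rfl fun i _ => by rw [hA s i]
  have hone : ∀ x ∈ cube d, ∀ j, x j = 1 → f x j = 1 := by
    intro x hx j hj
    obtain ⟨s, hs⟩ := hcov x hx
    obtain ⟨τ, h0, h1, h2, h3⟩ := hrep s x hs
    rw [← h3]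
    exact face_one (hU s) h0 h1 (by rw [h2]; exact hj)
  have hzero : ∀ x ∈ cube d, ∀ j, x j = 0 → f x j = 0 := by
    intro x hx j hj
    obtain ⟨s, hs⟩ := hcov x hx
    obtain ⟨τ, h0, h1, h2, h3⟩ := hrep s x hs
    rw [← h3]
    exact face_zero (hU s) h0 (by rw [h2]; exact hj)
  have hg : ∀ x y : Fin d → ℝ, ‖(f (P x) - P x) - (f (P y) - P y)‖ ≤ (C + 1) * ‖x - y‖ := by
    intro x y
    have h1 := hlip (P y) (P_mem y) (P x) (P_mem x)
    have h2 := P_lip x y
    calc ‖(f (P x) - P x) - (f (P y) - P y)‖ = ‖(f (P x) - f (P y)) - (P x - P y)‖ := by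
          congr 1; abel
      _ ≤ ‖f (P x) - f (P y)‖ + ‖P x - P y‖ := norm_sub_le _ _
      _ ≤ C * ‖x - y‖ + ‖x - y‖ := add_le_add (h1.trans (mul_le_mul_of_nonneg_left h2 hC0)) h2
      _ = (C + 1) * ‖x - y‖ := by ring
  refine ⟨1 / (C + 2), by positivity, fun t ht0 ht1 => ?_⟩
  have hCpos : 0 < C + 2 := by linarith
  have htM : t * (C + 1) < 1 := by
    have h1 : t * (C + 2) < 1 := by rwa [lt_div_iff₀ hCpos] at ht1
    nlinarith
  have ht1' : t < 1 := by nlinarith
  have hinj : ∀ x ∈ cube d, ∀ y ∈ cube d, x + t • (f x - x) = y + t • (f y - y) → x = y := by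
    intro x hx y hy hxy
    have h1 := hg y x
    rw [P_eq hx, P_eq hy] at h1
    have h2 : x - y = t • ((f y - y) - (f x - x)) := by
      have h3 : x = y + t • (f y - y) - t • (f x - x) := by rw [← hxy]; abel
      calc x - y = (y + t • (f y - y) - t • (f x - x)) - y := by rw [← h3]
        _ = _ := by module
    have h3 : ‖x - y‖ ≤ t * ((C + 1) * ‖y - x‖) := by
      rw [h2, norm_smul, Real.norm_eq_abs, abs_of_pos ht0]
      exact mul_le_mul_of_nonneg_left h1 ht0.le
    rw [norm_sub_rev y x] at h3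
    have h4 : ‖x - y‖ = 0 := by
      have h5 := norm_nonneg (x - y)
      nlinarith
    exact sub_eq_zero.1 (norm_eq_zero.1 h4)
  have himg : ∀ s, ∀ y ∈ body (mv (W s) (fun i => lab (W s i)) t),
      ∃ x ∈ body (W s), y = x + t • (f x - x) := by
    intro s y hy
    unfold body at hy
    rw [mem_hull_range] at hy
    obtain ⟨τ, h0, h1, h2⟩ := hy
    have hx : ∑ i, τ i • W s i ∈ body (W s) := by
      unfold body
      rw [mem_hull_range]
      exact ⟨τ, h0, h1, rfl⟩
    refine ⟨_, hx, ?_⟩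
    rw [hf s _ hx, ← h2]
    exact mv_sum (hA s) h1
  have himg' : ∀ s, ∀ x ∈ body (W s),
      x + t • (f x - x) ∈ body (mv (W s) (fun i => lab (W s i)) t) := by
    intro s x hx
    have hx' := hx
    unfold body at hx'
    rw [mem_hull_range] at hx'
    obtain ⟨τ, h0, h1, h2⟩ := hx'
    unfold body
    rw [mem_hull_range]
    refine ⟨τ, h0, h1, ?_⟩
    rw [hf s x hx, ← h2]
    exact mv_sum (hA s) h1
  constructor
  · refine Subset.antisymm (iUnion_subset fun s => body_subset_cube fun i j => ?_) ?_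
    · have h1 := hU s i j
      have h2 := lab_mem (W s i) j
      change 0 ≤ W s i j + t * (lab (W s i) j - W s i j) ∧
        W s i j + t * (lab (W s i) j - W s i j) ≤ 1
      constructor <;> nlinarith
    · intro y hy
      have hcon : ContractingWith (Real.toNNReal (t * (C + 1)))
          (fun x : Fin d → ℝ => y - t • (f (P x) - P x)) := by
        have hK0 : 0 ≤ t * (C + 1) := by positivity
        refine ⟨?_, LipschitzWith.of_dist_le_mul fun a b => ?_⟩
        · rw [← NNReal.coe_lt_coe, Real.coe_toNNReal _ hK0]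
          exact_mod_cast htM
        · rw [Real.coe_toNNReal _ hK0, dist_eq_norm, dist_eq_norm]
          have h1 : y - t • (f (P a) - P a) - (y - t • (f (P b) - P b)) =
              (-t) • ((f (P a) - P a) - (f (P b) - P b)) := by module
          rw [h1, norm_smul, norm_neg, Real.norm_eq_abs, abs_of_pos ht0, mul_assoc]
          exact mul_le_mul_of_nonneg_left (hg a b) ht0.le
      set x := ContractingWith.fixedPoint _ hcon with hxdef
      have hfix : y - t • (f (P x) - P x) = x := hcon.fixedPoint_isFixedPt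
      have hxc : x ∈ cube d := by
        intro j
        have hj : y j - t * (f (P x) j - P x j) = x j := congrFun hfix j
        constructor
        · by_contra hneg
          push Not at hneg
          have h1 : P x j = 0 := by
            unfold P
            rw [max_eq_left]
            exact (min_le_right _ _).trans hneg.le
          rw [hzero (P x) (P_mem x) j h1, h1, sub_zero, mul_zero, sub_zero] at hj
          have := (hy j).1
          linarith
        · by_contra hneg
          push Not at hneg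
          have h1 : P x j = 1 := by
            unfold P
            rw [min_eq_left hneg.le, max_eq_right zero_le_one]
          rw [hone (P x) (P_mem x) j h1, h1, sub_self, mul_zero, sub_zero] at hj
          have := (hy j).2
          linarith
      rw [P_eq hxc] at hfix
      have hy2 : y = x + t • (f x - x) := by
        calc y = (y - t • (f x - x)) + t • (f x - x) := by abel
          _ = _ := by rw [hfix]
      obtain ⟨s, hs⟩ := hcov x hxc
      rw [hy2]
      exact mem_iUnion.2 ⟨s, himg' s x hs⟩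
  · intro s s' hss
    have h1 : volume (body (W s) ∩ body (W s')) = 0 := by
      have hcx : Convex ℝ (body (W s) ∩ body (W s')) :=
        (convex_convexHull ℝ _).inter (convex_convexHull ℝ _)
      have h2 := hcx.addHaar_frontier (μ := volume)
      rw [((isClosed_body (W s)).inter (isClosed_body (W s'))).frontier_eq, interior_inter,
        (hW.1.2 s s' hss).inter_eq, sdiff_empty] at h2
      exact h2
    have h2 : body (mv (W s) (fun i => lab (W s i)) t) ∩
        body (mv (W s') (fun i => lab (W s' i)) t) ⊆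
        (fun x => x + t • ((A s x + c s) - x)) '' (body (W s) ∩ body (W s')) := by
      rintro y ⟨hy, hy'⟩
      obtain ⟨x, hx, rfl⟩ := himg s y hy
      obtain ⟨x', hx', he⟩ := himg s' _ hy'
      have h3 := hinj x (hsub s hx) x' (hsub s' hx') he
      refine ⟨x, ⟨hx, h3 ▸ hx'⟩, ?_⟩
      beta_reduce
      rw [← hf s x hx]
    refine measure_mono_null h2 ?_
    refine addHaar_image_eq_zero_of_differentiableOn_of_addHaar_eq_zero volume ?_ h1
    have h3 : Differentiable ℝ (fun x : Fin d → ℝ => x + t • ((A s x + c s) - x)) :=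
      differentiable_id.add ((((A s).differentiable.add_const (c s)).sub
        differentiable_id).const_smul t)
    exact h3.differentiableOn

end Helper67.BS
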