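import Pool.Agent.Helper67.BS.Lift2

/-!
# The chain of the levels with rational coefficients

`psiQ c i δ n = aQ i n - δ * bQ c i n` is the weight at `i` levels below the target; at the target
it is `1`. All conditions are finite and rational.
-/

set_option autoImplicit false

namespace Helper67.BS

open Helper67.Cube

/-- constant term -/
def aQ : ℕ → ℕ → ℚ
  | 0, _ => 1
  | i+1, n => aQ i (n+1) / ((n : ℚ) + 1)

/-- coefficient of the determinant -/
def bQ (c : ℕ → ℚ) : ℕ → ℕ → ℚ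
  | 0, _ => 0
  | i+1, n => (bQ c i (n+1) + c i) / ((n : ℚ) + 1)

/-- the weight at `i` levels below the target -/
noncomputable def psiQ (c : ℕ → ℚ) (i δ n : ℕ) : ℝ := ((aQ i n - δ * bQ c i n : ℚ) : ℝ)

lemma psiQ_zero (c : ℕ → ℚ) (δ n : ℕ) : psiQ c 0 δ n = 1 := by
  unfold psiQ
  simp [aQ, bQ]

/-- check of the step from level `m` (index `i+1`) to level `m+1` (index `i`) -/
def stepQ (V : ℕ → ℕ) (c : ℕ → ℚ) (i m : ℕ) : Prop :=
  0 ≤ c i ∧ c i * V (m+1) ≤ aQ i 0 - V (m+1) * bQ c i 0 ∧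
    ∀ n < m + 1, ∀ k < n + 2, k = 0 ∨ ((k : ℚ) * aQ (i+1) n ≤ aQ i k ∧
      c i * V (m-n) + k * (aQ (i+1) n - V (m-n) * bQ c (i+1) n) ≤ aQ i k - V (m-n) * bQ c i k)

instance (V : ℕ → ℕ) (c : ℕ → ℚ) (i m : ℕ) : Decidable (stepQ V c i m) := by
  unfold stepQ; infer_instance

/-- nonnegative at both ends implies nonnegative in between -/
lemma lin_le {A B δ v : ℚ} (h0 : 0 ≤ A) (hv : 0 ≤ A - v * B) (hδ : 0 ≤ δ) (h : δ ≤ v) :
    0 ≤ A - δ * B := by
  rcases le_or_gt B 0 with hB | hB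
  · nlinarith
  · have : δ * B ≤ v * B := mul_le_mul_of_nonneg_right h hB.le
    linarith

/-- the inequality at one level: `dis` for dissections only -/
def LevP (dis : Bool) (c : ℕ → ℚ) (m i : ℕ) (Om : ℚ) : Prop :=
  ∀ (N : ℕ) (W : Fin N → Fin (m+1) → Fin m → ℝ), IsCover W → IsVertexFamily W →
    (dis = true → IsDissection W) → (Om : ℝ) ≤ ∑ s, psiQ c i (ndet (W s)) (kk (W s))

lemma exists_V {V : ℕ → ℕ} {B : ℕ} (hV : ∀ i ≤ B, maxDet i ≤ V i)
    (hVm : ∀ i < B, V i ≤ V (i+1)) :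
    ∃ V' : ℕ → ℕ, (∀ i, maxDet i ≤ V' i) ∧ Monotone V' ∧ ∀ i ≤ B, V' i = V i := by
  have hm : ∀ i j, i ≤ j → j ≤ B → V i ≤ V j := by
    intro i j hij
    induction j, hij using Nat.le_induction with
    | base => intro _; exact le_rfl
    | succ j _ ih => intro hj; exact (ih (by omega)).trans (hVm j (by omega))
  refine ⟨fun i => if i ≤ B then V i else V B + ∑ j ∈ Finset.range (i+1), maxDet j, fun i => ?_,
    fun i j hij => ?_, fun i hi => if_pos hi⟩
  · beta_reduce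
    split_ifs with h
    · exact hV i h
    · have : maxDet i ≤ ∑ j ∈ Finset.range (i+1), maxDet j :=
        Finset.single_le_sum (f := maxDet) (fun _ _ => Nat.zero_le _)
          (Finset.mem_range.2 (Nat.lt_succ_self i))
      omega
  · beta_reduce
    by_cases hj : j ≤ B
    · rw [if_pos hj, if_pos (hij.trans hj)]
      exact hm i j hij hj
    · rw [if_neg hj]
      by_cases hi : i ≤ B
      · rw [if_pos hi]
        exact (hm i B hi le_rfl).trans (Nat.le_add_right _ _)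
      · rw [if_neg hi]
        have : ∑ j ∈ Finset.range (i+1), maxDet j ≤ ∑ j ∈ Finset.range (j+1), maxDet j :=
          Finset.sum_le_sum_of_subset (Finset.range_mono (by omega))
        omega

/-- **one step of the chain** -/
theorem LevP.step {dis : Bool} {V : ℕ → ℕ} {c : ℕ → ℚ} {m i : ℕ} {Om : ℚ} (hm : 1 ≤ m)
    (hV : ∀ i ≤ m + 1, maxDet i ≤ V i) (hVm : ∀ i < m + 1, V i ≤ V (i+1))
    (h : LevP dis c m (i+1) Om) (hs : stepQ V c i m) :
    LevP dis c (m+1) i (c i * (m+1).factorial + 2 * (m+1) * Om) := by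
  obtain ⟨V', hV', hVm', hVe⟩ := exists_V hV hVm
  obtain ⟨hc, hs0, hs1⟩ := hs
  intro N W hW hv hd
  have h1 := lift2 (m := m) hm hW hv hV' hVm' (psi := psiQ c (i+1)) (phi := psiQ c i)
    (c := ((c i : ℚ) : ℝ)) (Om := (Om : ℝ)) (by exact_mod_cast hc) ?_ ?_ ?_
  · refine le_trans (le_of_eq ?_) h1
    push_cast
    ring
  · intro δ k n hδ1 hδ2 hk1 hk2 hn
    rw [hVe _ (by omega)] at hδ2
    have h2 := (hs1 n (by omega) k (by omega)).resolve_left (by omega)
    have h3 : (0:ℚ) ≤ (aQ i k - k * aQ (i+1) n) -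
        δ * (c i + bQ c i k - k * bQ c (i+1) n) := by
      refine lin_le (v := (V (m-n) : ℚ)) (by linarith [h2.1]) ?_ (Nat.cast_nonneg _)
        (by exact_mod_cast hδ2)
      have := h2.2
      linarith
    have h4 : (c i : ℚ) * δ + k * (aQ (i+1) n - δ * bQ c (i+1) n) ≤ aQ i k - δ * bQ c i k := by
      linarith
    unfold psiQ
    exact_mod_cast h4
  · intro δ hδ1 hδ2
    rw [hVe _ le_rfl] at hδ2
    have ha : (0:ℚ) ≤ aQ i 0 := by
      have : ∀ i n, (0:ℚ) ≤ aQ i n := by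
        intro i
        induction i with
        | zero => intro n; simp [aQ]
        | succ i ih => intro n; rw [aQ]; exact div_nonneg (ih _) (by positivity)
      exact this i 0
    have h3 : (0:ℚ) ≤ aQ i 0 - δ * (c i + bQ c i 0) := by
      refine lin_le (v := (V (m+1) : ℚ)) ha ?_ (Nat.cast_nonneg _) (by exact_mod_cast hδ2)
      linarith
    have h4 : (c i : ℚ) * δ ≤ aQ i 0 - δ * bQ c i 0 := by linarith
    unfold psiQ
    exact_mod_cast h4
  · intro N' W' h2 h3 h4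
    exact h N' W' h2 h3 fun hdis => h4 (hd hdis)

/-- the target -/
theorem LevP.target {dis : Bool} {c : ℕ → ℚ} {m : ℕ} {Om : ℚ} (h : LevP dis c m 0 Om) {N : ℕ}
    {W : Fin N → Fin (m+1) → Fin m → ℝ} (hW : IsCover W) (hv : IsVertexFamily W)
    (hd : dis = true → IsDissection W) : (Om : ℝ) ≤ N := by
  have h1 := h N W hW hv hd
  simp only [psiQ_zero, Finset.sum_const, Finset.card_univ, Fintype.card_fin, nsmul_eq_mul,
    mul_one] at h1
  exact h1

/-- check of the base: the bounds `M n δ` of the objective -/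
def baseQ (V : ℕ → ℕ) (c : ℕ → ℚ) (M : ℕ → ℕ → ℕ) (lam mu : ℚ) (m i : ℕ) : Prop :=
  0 ≤ lam ∧ 0 ≤ mu ∧ ∀ n < m + 1, ∀ δ < V (m - n) + 1,
    δ = 0 ∨ lam * M n δ + mu * δ ≤ aQ i n - δ * bQ c i n

instance (V : ℕ → ℕ) (c : ℕ → ℚ) (M : ℕ → ℕ → ℕ) (lam mu : ℚ) (m i : ℕ) :
    Decidable (baseQ V c M lam mu m i) := by
  unfold baseQ; infer_instance

/-- **base of the chain** -/
theorem LevP.base {dis : Bool} {V : ℕ → ℕ} {c : ℕ → ℚ} {M : ℕ → ℕ → ℕ} {lam mu : ℚ} {m i : ℕ}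
    (hV : ∀ i ≤ m, maxDet i ≤ V i) (hVm : ∀ i < m, V i ≤ V (i+1))
    (hb : baseQ V c M lam mu m i) {Φ : (Fin (m+1) → Fin m → ℝ) → ℝ} {Tot : ℚ}
    (hΦ : ∀ w : Fin (m+1) → Fin m → ℝ, AffineIndependent ℝ w → (∀ i j, w i j = 0 ∨ w i j = 1) →
      Φ w ≤ M (kk w) (ndet w))
    (hT : ∀ (N : ℕ) (W : Fin N → Fin (m+1) → Fin m → ℝ), IsCover W → IsVertexFamily W →
      (dis = true → IsDissection W) → (Tot : ℝ) ≤ ∑ s, Φ (W s)) :
    LevP dis c m i (lam * Tot + mu * m.factorial) := by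
  obtain ⟨V', hV', hVm', hVe⟩ := exists_V hV hVm
  obtain ⟨hlam, hmu, hb⟩ := hb
  intro N W hW hv hd
  have h1 := base_of_le hW hv (psi := psiQ c i) (Φ := Φ) (lam := (lam : ℝ)) (mu := (mu : ℝ))
    (Tot := (Tot : ℝ)) (by exact_mod_cast hlam) (by exact_mod_cast hmu) ?_ (hT N W hW hv hd)
  · refine le_trans (le_of_eq ?_) h1
    push_cast
    ring
  · intro w hw hv'
    have h2 := ndet_le hV' hVm' hv'
    rw [hVe _ (Nat.sub_le _ _)] at h2
    have h3 := one_le_ndet hw hv'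
    have h4 := (hb (kk w) (by have := kk_le w; omega) (ndet w) (by omega)).resolve_left (by omega)
    have h5 : (lam : ℝ) * Φ w ≤ lam * M (kk w) (ndet w) :=
      mul_le_mul_of_nonneg_left (hΦ w hw hv') (by exact_mod_cast hlam)
    have h6 : ((lam * M (kk w) (ndet w) + mu * ndet w : ℚ) : ℝ) ≤ psiQ c i (ndet w) (kk w) := by
      unfold psiQ
      exact_mod_cast h4
    push_cast at h6
    rw [ndet_cast hv'] at h6
    linarith

end Helper67.BS
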