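import Pool.Agent.Helper67.CubeCover
import Pool.Agent.Helper67.CubeTri
import Pool.Agent.Helper67.CubeHad

/-!
# Weights on the facets of the cube

The members of a cover or dissection of a cube by vertex simplices induce covers or dissections of
the facets. A weight of the simplices of the facets that is bounded in terms of the number of
exterior facets and of the volume gives a lower bound for the number of members.
-/

set_option autoImplicit false

namespace Helper67.BS

open Helper67.Cube MeasureTheory Set Metric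

variable {m N : ℕ}

lemma det_bord_ne_zero {d : ℕ} {w : Fin (d+1) → Fin d → ℝ} (hw : AffineIndependent ℝ w) :
    (bord w).det ≠ 0 := by
  intro h0
  obtain ⟨t, ht0, ht⟩ := Matrix.exists_vecMul_eq_zero_iff.2 h0
  apply ht0
  have h1 : ∑ i, t i = 0 := by
    have := congrFun ht 0
    simpa [Matrix.vecMul, dotProduct, bord] using this
  have h2 : ∑ i, t i • w i = 0 := by
    funext k
    have := congrFun ht k.succ
    simpa [Matrix.vecMul, dotProduct, bord] using this
  rw [affineIndependent_iff_of_fintype] at hw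
  funext i
  refine hw t h1 ?_ i
  rw [Finset.weightedVSub_eq_linear_combination _ h1]
  exact h2

/-- the facet of an affinely independent simplex is affinely independent -/
lemma aff_rem {w : Fin (m+2) → Fin (m+1) → ℝ} (hw : AffineIndependent ℝ w) {i : Fin (m+2)}
    {j : Fin (m+1)} {a : ℝ} (h : ∀ i', i' ≠ i → w i' j = a) :
    AffineIndependent ℝ (rem w i j) := by
  refine affineIndependent_of_det fun h0 => ?_
  have h1 := vdet_ext w i j a h
  have h2 : vdet (rem w i j) = 0 := by unfold vdet; rw [h0, abs_zero]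
  rw [h2, mul_zero] at h1
  exact det_bord_ne_zero hw (abs_eq_zero.1 h1)

/-- the facet lies in the simplex -/
lemma insert_mem_body {w : Fin (m+2) → Fin (m+1) → ℝ} {i : Fin (m+2)}
    {j : Fin (m+1)} {a : ℝ} (h : ∀ i', i' ≠ i → w i' j = a) {y : Fin m → ℝ}
    (hy : y ∈ body (rem w i j)) : j.insertNth (α := fun _ => ℝ) a y ∈ body w := by
  unfold body at hy ⊢
  rw [mem_hull_range] at hy ⊢
  obtain ⟨τ, h0, h1, rfl⟩ := hy
  refine ⟨i.insertNth (α := fun _ => ℝ) 0 τ, fun i' => ?_, ?_, ?_⟩
  · refine Fin.succAboveCases i ?_ (fun i' => ?_) i'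
    · rw [Fin.insertNth_apply_same]
    · rw [Fin.insertNth_apply_succAbove]; exact h0 i'
  · rw [Fin.sum_univ_succAbove _ i, Fin.insertNth_apply_same, zero_add]
    simp only [Fin.insertNth_apply_succAbove]
    exact h1
  · rw [Fin.sum_univ_succAbove _ i, Fin.insertNth_apply_same, zero_smul, zero_add]
    simp only [Fin.insertNth_apply_succAbove]
    ext k
    refine Fin.succAboveCases j ?_ (fun k => ?_) k
    · rw [Fin.insertNth_apply_same, Finset.sum_apply]
      have h2 : ∀ i', (τ i' • w (i.succAbove i')) j = τ i' * a := by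
        intro i'
        rw [Pi.smul_apply, smul_eq_mul, h _ (Fin.succAbove_ne i i')]
      simp only [h2]
      rw [← Finset.sum_mul, h1, one_mul]
    · rw [Fin.insertNth_apply_succAbove, Finset.sum_apply, Finset.sum_apply]
      rfl

/-- the interior of the cube is dense in the cube -/
lemma cube_subset_closure (d : ℕ) : cube d ⊆ closure (interior (cube d)) := by
  have hcv : Convex ℝ (cube d) := by rw [cube_eq]; exact convex_Icc 0 1
  have hne : (interior (cube d)).Nonempty := by
    have hopen : IsOpen (Set.pi univ (fun _ : Fin d => Ioo (0:ℝ) 1)) :=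
      isOpen_set_pi finite_univ fun _ _ => isOpen_Ioo
    have hsub : Set.pi univ (fun _ : Fin d => Ioo (0:ℝ) 1) ⊆ cube d := by
      intro x hx j
      have := hx j (mem_univ j)
      exact ⟨this.1.le, this.2.le⟩
    refine ⟨fun _ => 1/2, interior_maximal hsub hopen ?_⟩
    intro j _
    constructor <;> norm_num
  rw [hcv.closure_interior_eq_closure_of_nonempty_interior hne]
  exact subset_closure

/-- the facets of the members cover the facet of the cube -/
lemma facet_cover {W : Fin N → Fin (m+2) → Fin (m+1) → ℝ} (hW : IsCover W) (j : Fin (m+1)) {a : ℝ}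
    (ha : a = 0 ∨ a = 1) {y : Fin m → ℝ} (hy : y ∈ cube m) :
    ∃ s, ∃ h : ExtAt (W s) j a, y ∈ body (rem (W s) h.choose j) := by
  classical
  by_contra hcon
  push Not at hcon
  set U : Set (Fin m → ℝ) := ⋃ s, {z | ∃ h : ExtAt (W s) j a, z ∈ body (rem (W s) h.choose j)}
    with hU
  have hcl : IsClosed U := by
    refine isClosed_iUnion_of_finite fun s => ?_
    by_cases h : ExtAt (W s) j a
    · have : {z | ∃ h : ExtAt (W s) j a, z ∈ body (rem (W s) h.choose j)} =
          body (rem (W s) h.choose j) := by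
        ext z
        exact ⟨fun ⟨_, hz⟩ => hz, fun hz => ⟨h, hz⟩⟩
      rw [this]
      exact isClosed_body _
    · have : {z | ∃ h : ExtAt (W s) j a, z ∈ body (rem (W s) h.choose j)} = ∅ := by
        ext z
        simp only [mem_empty_iff_false, iff_false]
        rintro ⟨h', _⟩
        exact h h'
      rw [this]
      exact isClosed_empty
  have hyU : y ∉ U := by
    intro h
    obtain ⟨s, h', hs⟩ := mem_iUnion.1 h
    exact hcon s h' hs
  have hopen : IsOpen (Uᶜ ∩ interior (cube m)) := hcl.isOpen_compl.inter isOpen_interior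
  have hne : (Uᶜ ∩ interior (cube m)).Nonempty := by
    have h1 := cube_subset_closure m hy
    rw [_root_.mem_closure_iff] at h1
    exact h1 _ hcl.isOpen_compl hyU
  have hpos := hopen.measure_pos volume hne
  have hnull : volume (Uᶜ ∩ interior (cube m)) = 0 := by
    have hsub : Uᶜ ∩ interior (cube m) ⊆ ⋃ s : {s : Fin N // ¬ ExtAt (W s) j a},
        slice (W s) j a := by
      rintro z ⟨hzU, hzc⟩
      have hz : z ∈ cube m := interior_subset hzc
      have hy2 : j.insertNth (α := fun _ => ℝ) a z ∈ cube (m+1) := by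
        intro i
        refine Fin.succAboveCases j ?_ (fun i' => ?_) i
        · simp only [Fin.insertNth_apply_same]
          rcases ha with rfl | rfl <;> norm_num
        · simp only [Fin.insertNth_apply_succAbove]
          exact hz i'
      rw [← hW.2] at hy2
      obtain ⟨s, hs⟩ := mem_iUnion.1 hy2
      have hnot : ¬ ExtAt (W s) j a := by
        intro h
        apply hzU
        rw [hU, mem_iUnion]
        refine ⟨s, h, slice_subset_body (W s) (hW.inUnit s) j a ha _ ?_ hs⟩
        obtain ⟨i, hi⟩ := exists_ne_of_affineIndependent (hW.1 s) j a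
        by_cases h2 : i = h.choose
        · rw [← h2]; exact hi
        · exact absurd (h.choose_spec i h2) hi
      exact mem_iUnion.2 ⟨⟨s, hnot⟩, hs⟩
    refine measure_mono_null hsub (measure_iUnion_null fun s => ?_)
    have h1 := volume_slice_le (W s) (hW.inUnit s) (hW.1 s) j a ha
    rw [fac_of_not s.2, zero_div, ENNReal.ofReal_zero] at h1
    exact le_antisymm h1 zero_le
  rw [hnull] at hpos
  exact lt_irrefl _ hpos

/-- near an interior point of the facet a one-sided box lies in the simplex -/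
lemma box_subset {w : Fin (m+2) → Fin (m+1) → ℝ} {i : Fin (m+2)} {j : Fin (m+1)} {a : ℝ}
    (ha : a = 0 ∨ a = 1) (hv : ∀ i j, w i j = 0 ∨ w i j = 1) (h : ∀ i', i' ≠ i → w i' j = a)
    (hi : w i j ≠ a) {y : Fin m → ℝ} (hy : y ∈ cube m) {r : ℝ} (hr : 0 < r)
    (hb : ball y r ⊆ body (rem w i j)) {x : Fin (m+1) → ℝ}
    (hx1 : dist (fun k => x (j.succAbove k)) y < r / 2) (hx2 : 0 < (x j - a) * (1 - 2 * a))
    (hx3 : (x j - a) * (1 - 2 * a) < r / (2 * (1 + r))) : x ∈ body w := by
  set ε := (x j - a) * (1 - 2 * a) with hε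
  have hr1 : 0 < 2 * (1 + r) := by linarith
  have hε2 : ε * (2 * (1 + r)) < r := by rwa [lt_div_iff₀ hr1] at hx3
  have hε1 : ε < 1 / 2 := by nlinarith
  have h1ε : 0 < 1 - ε := by linarith
  set v : Fin m → ℝ := fun k => w i (j.succAbove k) with hvdef
  set z : Fin m → ℝ := fun k => (x (j.succAbove k) - ε * v k) / (1 - ε) with hz
  have hvj : w i j = 1 - a := by
    rcases ha with rfl | rfl
    · rcases hv i j with h1 | h1
      · exact absurd h1 hi
      · rw [h1]; norm_num
    · rcases hv i j with h1 | h1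
      · rw [h1]; norm_num
      · exact absurd h1 hi
  have hzb : z ∈ ball y r := by
    rw [mem_ball, dist_pi_lt_iff hr]
    intro k
    have h1 : dist (x (j.succAbove k)) (y k) < r / 2 := by
      have := dist_le_pi_dist (fun k => x (j.succAbove k)) y k
      exact lt_of_le_of_lt this hx1
    rw [Real.dist_eq] at h1 ⊢
    rw [abs_lt] at h1
    have hvk : 0 ≤ v k ∧ v k ≤ 1 := by
      rcases hv i (j.succAbove k) with h2 | h2
      · rw [hvdef]; beta_reduce; rw [h2]; norm_num
      · rw [hvdef]; beta_reduce; rw [h2]; norm_num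
    have hyk := hy k
    have h3 : z k - y k = ((x (j.succAbove k) - y k) + ε * (y k - v k)) / (1 - ε) := by
      rw [hz]
      field_simp
      ring
    rw [h3, abs_lt]
    constructor
    · rw [lt_div_iff₀ h1ε]
      nlinarith [mul_le_mul_of_nonneg_left (show -1 ≤ y k - v k by linarith) hx2.le]
    · rw [div_lt_iff₀ h1ε]
      nlinarith [mul_le_mul_of_nonneg_left (show y k - v k ≤ 1 by linarith) hx2.le]
  have hz2 := insert_mem_body h (hb hzb)
  have hw2 : w i ∈ body w := subset_convexHull ℝ _ (mem_range_self i)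
  have hxe : x = (1 - ε) • j.insertNth (α := fun _ => ℝ) a z + ε • w i := by
    ext k
    refine Fin.succAboveCases j ?_ (fun k => ?_) k
    · rw [Pi.add_apply, Pi.smul_apply, Pi.smul_apply, Fin.insertNth_apply_same, smul_eq_mul,
        smul_eq_mul, hvj, hε]
      rcases ha with rfl | rfl <;> ring
    · rw [Pi.add_apply, Pi.smul_apply, Pi.smul_apply, Fin.insertNth_apply_succAbove, smul_eq_mul,
        smul_eq_mul, hz]
      have : w i (j.succAbove k) = v k := rfl
      rw [this]
      field_simp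
      ring
  rw [hxe]
  exact (convex_convexHull ℝ _) hz2 hw2 h1ε.le hx2.le (by ring)

/-- the facets of the members of a dissection have disjoint interiors -/
lemma facet_disjoint {W : Fin N → Fin (m+2) → Fin (m+1) → ℝ} (hW : IsDissection W)
    (hv : IsVertexFamily W) (j : Fin (m+1)) {a : ℝ} (ha : a = 0 ∨ a = 1) {s s' : Fin N}
    (hss : s ≠ s') (h : ExtAt (W s) j a) (h' : ExtAt (W s') j a) :
    Disjoint (interior (body (rem (W s) h.choose j))) (interior (body (rem (W s') h'.choose j))) := by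
  rw [Set.disjoint_left]
  intro y hy hy'
  obtain ⟨r, hr, hb⟩ := Metric.isOpen_iff.1 (isOpen_interior.inter isOpen_interior) y ⟨hy, hy'⟩
  have hyc : y ∈ cube m :=
    body_subset_cube (inUnit_rem (hW.1.inUnit s) _ _) (interior_subset hy)
  have hne : ∀ (u : Fin N) (hu : ExtAt (W u) j a), W u hu.choose j ≠ a := by
    intro u hu
    obtain ⟨i, hi⟩ := exists_ne_of_affineIndependent (hW.1.1 u) j a
    by_cases h2 : i = hu.choose
    · rw [← h2]; exact hi
    · exact absurd (hu.choose_spec i h2) hi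
  set O : Set (Fin (m+1) → ℝ) := {x | dist (fun k => x (j.succAbove k)) y < r / 2 ∧
    0 < (x j - a) * (1 - 2 * a) ∧ (x j - a) * (1 - 2 * a) < r / (2 * (1 + r))} with hO
  have hOopen : IsOpen O := by
    have c1 : Continuous fun x : Fin (m+1) → ℝ => dist (fun k => x (j.succAbove k)) y :=
      (continuous_pi fun k => continuous_apply _).dist continuous_const
    have c2 : Continuous fun x : Fin (m+1) → ℝ => (x j - a) * (1 - 2 * a) :=
      ((continuous_apply j).sub continuous_const).mul continuous_const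
    exact (isOpen_lt c1 continuous_const).inter
      ((isOpen_lt continuous_const c2).inter (isOpen_lt c2 continuous_const))
  have hOs : O ⊆ body (W s) := fun x hx =>
    box_subset ha (hv s) h.choose_spec (hne s h) hyc hr
      ((hb.trans inter_subset_left).trans interior_subset) hx.1 hx.2.1 hx.2.2
  have hOs' : O ⊆ body (W s') := fun x hx =>
    box_subset ha (hv s') h'.choose_spec (hne s' h') hyc hr
      ((hb.trans inter_subset_right).trans interior_subset) hx.1 hx.2.1 hx.2.2
  have hr1 : 0 < r / (2 * (1 + r)) := by positivity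
  have hOne : j.insertNth (α := fun _ => ℝ) (a + r / (2 * (1 + r)) / 2 * (1 - 2 * a)) y ∈ O := by
    refine ⟨?_, ?_, ?_⟩
    · simp only [Fin.insertNth_apply_succAbove]
      rw [dist_self]
      linarith
    · rw [Fin.insertNth_apply_same]
      rcases ha with rfl | rfl <;> ring_nf <;> ring_nf at hr1 <;> linarith
    · rw [Fin.insertNth_apply_same]
      rcases ha with rfl | rfl <;> ring_nf <;> ring_nf at hr1 <;> linarith
  exact Set.disjoint_left.1 (hW.2 s s' hss) (interior_maximal hOs hOopen hOne)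
    (interior_maximal hOs' hOopen hOne)

open Classical in
/-- the weight of the facet of `w` in `x_j = a` -/
noncomputable def fphi (Φ : (Fin (m+1) → Fin m → ℝ) → ℝ) (w : Fin (m+2) → Fin (m+1) → ℝ)
    (j : Fin (m+1)) (a : ℝ) : ℝ :=
  if h : ExtAt w j a then Φ (rem w h.choose j) else 0

/-- the family induced on a facet of the cube -/
theorem exists_facet {W : Fin N → Fin (m+2) → Fin (m+1) → ℝ} (hW : IsCover W)
    (hv : IsVertexFamily W) (j : Fin (m+1)) {a : ℝ} (ha : a = 0 ∨ a = 1)
    (Φ : (Fin (m+1) → Fin m → ℝ) → ℝ) :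
    ∃ (N' : ℕ) (W' : Fin N' → Fin (m+1) → Fin m → ℝ), IsCover W' ∧ IsVertexFamily W' ∧
      (IsDissection W → IsDissection W') ∧ ∑ s, Φ (W' s) = ∑ s, fphi Φ (W s) j a := by
  classical
  set e := Fintype.equivFin {s : Fin N // ExtAt (W s) j a} with he
  have hcov : IsCover (fun k => rem (W (e.symm k)) (e.symm k).2.choose j) := by
    refine ⟨fun k => aff_rem (hW.1 _) (e.symm k).2.choose_spec, Subset.antisymm ?_ ?_⟩
    · exact iUnion_subset fun k => body_subset_cube (inUnit_rem (hW.inUnit _) _ _)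
    · intro y hy
      obtain ⟨s, h, hs⟩ := facet_cover hW j ha hy
      refine mem_iUnion.2 ⟨e ⟨s, h⟩, ?_⟩
      have h1 : e.symm (e ⟨s, h⟩) = ⟨s, h⟩ := e.symm_apply_apply _
      have h2 : ∀ t : {s : Fin N // ExtAt (W s) j a}, t = ⟨s, h⟩ →
          y ∈ body (rem (W t) t.2.choose j) := by
        rintro t rfl; exact hs
      exact h2 _ h1
  refine ⟨_, fun k => rem (W (e.symm k)) (e.symm k).2.choose j, hcov, fun k i' j' => hv _ _ _,
    fun hD => ⟨hcov, fun k k' hk => ?_⟩, ?_⟩
  · refine facet_disjoint hD hv j ha ?_ _ _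
    intro h
    exact hk (e.symm.injective (Subtype.ext h))
  · rw [Equiv.sum_comp e.symm (fun t : {s : Fin N // ExtAt (W s) j a} =>
      Φ (rem (W t) t.2.choose j))]
    have h1 : ∀ t : {s : Fin N // ExtAt (W s) j a}, Φ (rem (W t) t.2.choose j) =
        fphi Φ (W t) j a := by
      intro t
      unfold fphi
      rw [dif_pos t.2]
    rw [Finset.sum_congr rfl fun t _ => h1 t]
    rw [← Finset.sum_subtype (Finset.univ.filter fun s => ExtAt (W s) j a) (fun s => by simp)
      (fun s => fphi Φ (W s) j a)]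
    refine Finset.sum_subset (Finset.subset_univ _) fun s _ hs => ?_
    unfold fphi
    rw [dif_neg]
    simpa using hs

/-- weight of the exterior facets of one member -/
lemma sum_fphi_le (hm : 1 ≤ m) {Φ : (Fin (m+1) → Fin m → ℝ) → ℝ} {Λ M : ℝ} (hΛ : 0 ≤ Λ)
    (hP : ∀ w : Fin (m+1) → Fin m → ℝ, AffineIndependent ℝ w → (∀ i j, w i j = 0 ∨ w i j = 1) →
      (1 + (kk w : ℝ)) * Φ w ≤ Λ * (M - vdet w))
    {w : Fin (m+2) → Fin (m+1) → ℝ} (hw : AffineIndependent ℝ w)
    (hv : ∀ i j, w i j = 0 ∨ w i j = 1) (hM : vdet w ≤ M) :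
    ∑ j, (fphi Φ w j 0 + fphi Φ w j 1) ≤ Λ * (M - vdet w) := by
  classical
  have hR : 0 ≤ Λ * (M - vdet w) := mul_nonneg hΛ (by linarith)
  have hu : InUnit w := by
    intro i j
    rcases hv i j with h | h <;> rw [h] <;> norm_num
  have h2 : ∀ j a, (a = 0 ∨ a = 1) → (kk w : ℝ) * fphi Φ w j a ≤ Λ * (M - vdet w) := by
    intro j a ha
    unfold fphi
    split_ifs with hE
    · have h3 := hP (rem w hE.choose j) (aff_rem hw hE.choose_spec) (fun _ _ => hv _ _)
      have h4 : (kk w : ℝ) ≤ 1 + (kk (rem w hE.choose j) : ℝ) := by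
        have := kk_rem w hE.choose j
        have h5 : (kk w : ℝ) ≤ ((kk (rem w hE.choose j) + 1 : ℕ) : ℝ) := by exact_mod_cast this
        push_cast at h5
        linarith
      have h5 := vdet_le_rem w hu hE.choose j a ha hE.choose_spec
      have h6 : Λ * (M - vdet (rem w hE.choose j)) ≤ Λ * (M - vdet w) :=
        mul_le_mul_of_nonneg_left (by linarith) hΛ
      rcases le_or_gt 0 (Φ (rem w hE.choose j)) with h7 | h7
      · exact (mul_le_mul_of_nonneg_right h4 h7).trans (h3.trans h6)
      · have h8 : (kk w : ℝ) * Φ (rem w hE.choose j) ≤ 0 :=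
          mul_nonpos_of_nonneg_of_nonpos (Nat.cast_nonneg _) h7.le
        linarith
    · rw [mul_zero]; exact hR
  have h3 : ∀ j, (kk w : ℝ) * (fphi Φ w j 0 + fphi Φ w j 1) ≤
      if Ext w j then Λ * (M - vdet w) else 0 := by
    intro j
    by_cases hE : Ext w j
    · rw [if_pos hE]
      have h4 : ¬ (ExtAt w j 0 ∧ ExtAt w j 1) := by
        rintro ⟨⟨i, hi⟩, ⟨i', hi'⟩⟩
        have : ∃ i'' : Fin (m+2), i'' ≠ i ∧ i'' ≠ i' := by
          by_contra hcon
          push Not at hcon
          have h5 : (Finset.univ : Finset (Fin (m+2))) ⊆ {i, i'} := by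
            intro x _
            by_cases hx : x = i
            · simp [hx]
            · simp [hcon x hx]
          have h6 := Finset.card_le_card h5
          have h7 : ({i, i'} : Finset (Fin (m+2))).card ≤ 2 := Finset.card_le_two
          simp at h6
          omega
        obtain ⟨x, hx1, hx2⟩ := this
        have h8 := hi x hx1
        have h9 := hi' x hx2
        rw [h8] at h9
        norm_num at h9
      by_cases h5 : ExtAt w j 0
      · have h6 : ¬ ExtAt w j 1 := fun h7 => h4 ⟨h5, h7⟩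
        have h7 : fphi Φ w j 1 = 0 := by unfold fphi; rw [dif_neg h6]
        rw [h7, add_zero]
        exact h2 j 0 (Or.inl rfl)
      · have h7 : fphi Φ w j 0 = 0 := by unfold fphi; rw [dif_neg h5]
        rw [h7, zero_add]
        exact h2 j 1 (Or.inr rfl)
    · rw [if_neg hE]
      have h5 : fphi Φ w j 0 = 0 := by
        unfold fphi; rw [dif_neg]; exact fun h6 => hE ⟨0, Or.inl rfl, h6⟩
      have h6 : fphi Φ w j 1 = 0 := by
        unfold fphi; rw [dif_neg]; exact fun h7 => hE ⟨1, Or.inr rfl, h7⟩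
      rw [h5, h6, add_zero, mul_zero]
  have h4 : (kk w : ℝ) * ∑ j, (fphi Φ w j 0 + fphi Φ w j 1) ≤ kk w * (Λ * (M - vdet w)) := by
    rw [Finset.mul_sum]
    refine (Finset.sum_le_sum fun j _ => h3 j).trans (le_of_eq ?_)
    rw [← Finset.sum_filter, Finset.sum_const, nsmul_eq_mul]
    rfl
  rcases Nat.eq_zero_or_pos (kk w) with h5 | h5
  · have h6 : ∀ j, ¬ Ext w j := by
      intro j hj
      unfold kk at h5
      rw [Finset.card_eq_zero] at h5
      have : j ∈ Finset.univ.filter (Ext w) := Finset.mem_filter.2 ⟨Finset.mem_univ _, hj⟩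
      rw [h5] at this
      simp at this
    have h7 : ∑ j, (fphi Φ w j 0 + fphi Φ w j 1) = 0 := by
      refine Finset.sum_eq_zero fun j _ => ?_
      have h8 : fphi Φ w j 0 = 0 := by
        unfold fphi; rw [dif_neg]; exact fun h9 => h6 j ⟨0, Or.inl rfl, h9⟩
      have h9 : fphi Φ w j 1 = 0 := by
        unfold fphi; rw [dif_neg]; exact fun h9 => h6 j ⟨1, Or.inr rfl, h9⟩
      rw [h8, h9, add_zero]
    rw [h7]; exact hR
  · have h6 : (0:ℝ) < kk w := by exact_mod_cast h5
    exact le_of_mul_le_mul_left h4 h6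

/-- **Weights on the facets.** -/
theorem lift (hm : 1 ≤ m) {W : Fin N → Fin (m+2) → Fin (m+1) → ℝ} (hW : IsCover W)
    (hv : IsVertexFamily W) {Φ : (Fin (m+1) → Fin m → ℝ) → ℝ} {Λ M Tot : ℝ} (hΛ : 0 ≤ Λ)
    (hM : ∀ s, vdet (W s) ≤ M)
    (hP : ∀ w : Fin (m+1) → Fin m → ℝ, AffineIndependent ℝ w → (∀ i j, w i j = 0 ∨ w i j = 1) →
      (1 + (kk w : ℝ)) * Φ w ≤ Λ * (M - vdet w))
    (hT : ∀ (N' : ℕ) (W' : Fin N' → Fin (m+1) → Fin m → ℝ), IsCover W' → IsVertexFamily W' →
      (IsDissection W → IsDissection W') → Tot ≤ ∑ s, Φ (W' s)) :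
    Λ * (m+1).factorial + 2 * (m+1) * Tot ≤ Λ * M * N := by
  have hvol : ((m+1).factorial : ℝ) ≤ ∑ s, vdet (W s) := by
    have h1 : (1 : ENNReal) ≤ ∑ s, ENNReal.ofReal (vdet (W s) / (m+1).factorial) := by
      rw [← volume_cube (m+1), ← hW.2]
      refine (measure_iUnion_le _).trans ?_
      rw [tsum_fintype]
      exact Finset.sum_le_sum fun s _ => (volume_body _).le
    rw [← ENNReal.ofReal_sum_of_nonneg (fun s _ => div_nonneg (vdet_nonneg _) (by positivity)),
      ENNReal.one_le_ofReal, ← Finset.sum_div, le_div_iff₀ (by positivity), one_mul] at h1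
    exact h1
  have hfac : ∀ j a, (a = 0 ∨ a = 1) → Tot ≤ ∑ s, fphi Φ (W s) j a := by
    intro j a ha
    obtain ⟨N', W', h1, h2, h3, h4⟩ := exists_facet hW hv j ha Φ
    rw [← h4]
    exact hT N' W' h1 h2 h3
  have hsum : ∑ s, ∑ j, (fphi Φ (W s) j 0 + fphi Φ (W s) j 1) ≤ Λ * M * N - Λ * ∑ s, vdet (W s) := by
    refine (Finset.sum_le_sum fun s _ =>
      sum_fphi_le hm hΛ hP (hW.1 s) (hv s) (hM s)).trans (le_of_eq ?_)
    rw [Finset.mul_sum]
    simp only [mul_sub, Finset.sum_sub_distrib, Finset.sum_const, Finset.card_univ,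
      Fintype.card_fin, nsmul_eq_mul]
    ring
  have hswap : ∑ s, ∑ j, (fphi Φ (W s) j 0 + fphi Φ (W s) j 1)
      = ∑ j, (∑ s, fphi Φ (W s) j 0 + ∑ s, fphi Φ (W s) j 1) := by
    rw [Finset.sum_comm]
    exact Finset.sum_congr rfl fun j _ => Finset.sum_add_distrib
  have h2 : 2 * ((m : ℝ) + 1) * Tot ≤ ∑ s, ∑ j, (fphi Φ (W s) j 0 + fphi Φ (W s) j 1) := by
    rw [hswap]
    have h3 : ∑ _j : Fin (m+1), (Tot + Tot) ≤
        ∑ j, (∑ s, fphi Φ (W s) j 0 + ∑ s, fphi Φ (W s) j 1) :=
      Finset.sum_le_sum fun j _ => add_le_add (hfac j 0 (Or.inl rfl)) (hfac j 1 (Or.inr rfl))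
    refine le_trans (le_of_eq ?_) h3
    rw [Finset.sum_const, Finset.card_univ, Fintype.card_fin, nsmul_eq_mul]
    push_cast
    ring
  have h3 := mul_le_mul_of_nonneg_left hvol hΛ
  linarith

lemma maxDet_seven : maxDet 7 ≤ 32 := maxDet_le_of _ _ (by norm_num)

/-- covers of the 7-cube by vertex simplices -/
theorem seven_cover {W : Fin N → Fin 8 → Fin 7 → ℝ} (hW : IsCover W) (hv : IsVertexFamily W)
    {Φ : (Fin 7 → Fin 6 → ℝ) → ℝ} {Λ Tot : ℝ} (hΛ : 0 ≤ Λ)
    (hP : ∀ w : Fin 7 → Fin 6 → ℝ, AffineIndependent ℝ w → (∀ i j, w i j = 0 ∨ w i j = 1) →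
      (1 + (kk w : ℝ)) * Φ w ≤ Λ * (32 - vdet w))
    (hT : ∀ (N' : ℕ) (W' : Fin N' → Fin 7 → Fin 6 → ℝ), IsCover W' → IsVertexFamily W' →
      Tot ≤ ∑ s, Φ (W' s)) :
    5040 * Λ + 14 * Tot ≤ 32 * Λ * N := by
  have h := lift (m := 6) (by norm_num) hW hv hΛ (M := 32) (Tot := Tot) (fun s => ?_) hP
    (fun N' W' h1 h2 _ => hT N' W' h1 h2)
  · norm_num [Nat.factorial] at h
    linarith
  · refine (vdet_le_maxDet (W s) (hW.inUnit s)).trans ?_
    exact_mod_cast maxDet_seven

/-- dissections of the 7-cube by vertex simplices -/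
theorem seven_dissection {W : Fin N → Fin 8 → Fin 7 → ℝ} (hW : IsDissection W)
    (hv : IsVertexFamily W)
    {Φ : (Fin 7 → Fin 6 → ℝ) → ℝ} {Λ Tot : ℝ} (hΛ : 0 ≤ Λ)
    (hP : ∀ w : Fin 7 → Fin 6 → ℝ, AffineIndependent ℝ w → (∀ i j, w i j = 0 ∨ w i j = 1) →
      (1 + (kk w : ℝ)) * Φ w ≤ Λ * (32 - vdet w))
    (hT : ∀ (N' : ℕ) (W' : Fin N' → Fin 7 → Fin 6 → ℝ), IsDissection W' → IsVertexFamily W' →
      Tot ≤ ∑ s, Φ (W' s)) :
    5040 * Λ + 14 * Tot ≤ 32 * Λ * N := by
  have h := lift (m := 6) (by norm_num) hW.1 hv hΛ (M := 32) (Tot := Tot) (fun s => ?_) hP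
    (fun N' W' _ h2 h3 => hT N' W' (h3 hW) h2)
  · norm_num [Nat.factorial] at h
    linarith
  · refine (vdet_le_maxDet (W s) (hW.1.inUnit s)).trans ?_
    exact_mod_cast maxDet_seven

end Helper67.BS
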