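import Pool.Agent.Helper67.BS.Lift

/-!
# Iterated weights on the facets of the cube

From inequalities `∑ psi (det T) (number of exterior facets of T) ≥ Om` for all covers
(dissections) of `I_m` by vertex simplices to the same kind of inequality for `I_{m+1}`.
-/

set_option autoImplicit false

namespace Helper67.BS

open Helper67.Cube MeasureTheory Set Metric

variable {m N : ℕ}

/-- the determinant of a vertex simplex as a natural number -/
noncomputable def ndet {d : ℕ} (w : Fin (d+1) → Fin d → ℝ) : ℕ := ⌊vdet w⌋₊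

lemma vdet_nat {d : ℕ} {w : Fin (d+1) → Fin d → ℝ} (hv : ∀ i j, w i j = 0 ∨ w i j = 1) :
    ∃ δ : ℕ, vdet w = δ := by
  classical
  set B : Matrix (Fin (d+1)) (Fin (d+1)) ℤ := Matrix.of fun i =>
    (Fin.cons 1 (fun j => if w i j = 1 then 1 else 0) : Fin (d+1) → ℤ) with hB
  have h1 : bord w = B.map (fun x : ℤ => (x : ℝ)) := by
    ext i j
    refine Fin.cases ?_ (fun j => ?_) j
    · simp [bord, hB]
    · simp only [bord, hB, Matrix.of_apply, Matrix.map_apply, Fin.cons_succ]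
      rcases hv i j with h | h
      · rw [h]; simp
      · rw [h]; simp
  refine ⟨B.det.natAbs, ?_⟩
  unfold vdet
  rw [h1, ← Int.cast_det, Nat.cast_natAbs, Int.cast_abs]

lemma ndet_cast {d : ℕ} {w : Fin (d+1) → Fin d → ℝ} (hv : ∀ i j, w i j = 0 ∨ w i j = 1) :
    (ndet w : ℝ) = vdet w := by
  obtain ⟨δ, hδ⟩ := vdet_nat hv
  unfold ndet
  rw [hδ, Nat.floor_natCast]

lemma one_le_ndet {d : ℕ} {w : Fin (d+1) → Fin d → ℝ} (hw : AffineIndependent ℝ w)
    (hv : ∀ i j, w i j = 0 ∨ w i j = 1) : 1 ≤ ndet w := by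
  have h1 : 0 < vdet w := abs_pos.2 (det_bord_ne_zero hw)
  rw [← ndet_cast hv] at h1
  have : 0 < ndet w := by exact_mod_cast h1
  exact this

lemma vdet_eq_rem {w : Fin (m+2) → Fin (m+1) → ℝ} (hw : AffineIndependent ℝ w)
    (hv : ∀ i j, w i j = 0 ∨ w i j = 1) {i : Fin (m+2)} {j : Fin (m+1)} {a : ℝ}
    (ha : a = 0 ∨ a = 1) (h : ∀ i', i' ≠ i → w i' j = a) : vdet (rem w i j) = vdet w := by
  have hi : w i j ≠ a := by
    obtain ⟨i', hi'⟩ := exists_ne_of_affineIndependent hw j a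
    by_cases h2 : i' = i
    · rw [← h2]; exact hi'
    · exact absurd (h i' h2) hi'
  have h1 : |w i j - a| = 1 := by
    rcases ha with rfl | rfl
    · rcases hv i j with h1 | h1
      · exact absurd h1 hi
      · rw [h1]; norm_num
    · rcases hv i j with h1 | h1
      · rw [h1]; norm_num
      · exact absurd h1 hi
  rw [vdet_ext w i j a h, h1, one_mul]

lemma ndet_le {d : ℕ} {V : ℕ → ℕ} (hV : ∀ i, maxDet i ≤ V i) (hVm : Monotone V)
    {w : Fin (d+1) → Fin d → ℝ} (hv : ∀ i j, w i j = 0 ∨ w i j = 1) :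
    ndet w ≤ V (d - kk w) := by
  have hu : InUnit w := by
    intro i j
    rcases hv i j with h | h <;> rw [h] <;> norm_num
  obtain ⟨k, h1, h2, h3⟩ := vdet_le_kk d w hu
  have h4 : (ndet w : ℝ) ≤ (maxDet (d - k) : ℝ) := by rw [ndet_cast hv]; exact h3
  have h5 : ndet w ≤ maxDet (d - k) := by exact_mod_cast h4
  exact h5.trans ((hV _).trans (hVm (by omega)))

/-- weights of the exterior facets -/
lemma sum_fphi_le' (hm : 1 ≤ m) {Φ : (Fin (m+1) → Fin m → ℝ) → ℝ}
    {w : Fin (m+2) → Fin (m+1) → ℝ} {R : ℝ}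
    (h2 : ∀ j a, (a = 0 ∨ a = 1) → ExtAt w j a → (kk w : ℝ) * fphi Φ w j a ≤ R)
    (h0 : kk w = 0 → 0 ≤ R) :
    ∑ j, (fphi Φ w j 0 + fphi Φ w j 1) ≤ R := by
  classical
  have h3 : ∀ j, (kk w : ℝ) * (fphi Φ w j 0 + fphi Φ w j 1) ≤ if Ext w j then R else 0 := by
    intro j
    by_cases hE : Ext w j
    · rw [if_pos hE]
      have h4 : ¬ (ExtAt w j 0 ∧ ExtAt w j 1) := by
        rintro ⟨⟨i, hi⟩, ⟨i', hi'⟩⟩
        have : ∃ i'' : Fin (m+2), i'' ≠ i ∧ i'' ≠ i' := by
          by_contra hcon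
          push Not at hcon
          have h5 : (Finset.univ : Finset (Fin (m+2))) ⊆ {i, i'} := by
            intro x _
            by_cases hx : x = i
            · simp [hx]
            · simp [hcon x hx]
          have h6 := Finset.card_le_card h5
          have h7 : ({i, i'} : Finset (Fin (m+2))).card ≤ 2 := Finset.card_le_two
          simp at h6
          omega
        obtain ⟨x, hx1, hx2⟩ := this
        have h8 := hi x hx1
        have h9 := hi' x hx2
        rw [h8] at h9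
        norm_num at h9
      obtain ⟨a, ha, hEa⟩ := hE
      rcases ha with rfl | rfl
      · have h6 : ¬ ExtAt w j 1 := fun h7 => h4 ⟨hEa, h7⟩
        have h7 : fphi Φ w j 1 = 0 := by unfold fphi; rw [dif_neg h6]
        rw [h7, add_zero]
        exact h2 j 0 (Or.inl rfl) hEa
      · have h6 : ¬ ExtAt w j 0 := fun h7 => h4 ⟨h7, hEa⟩
        have h7 : fphi Φ w j 0 = 0 := by unfold fphi; rw [dif_neg h6]
        rw [h7, zero_add]
        exact h2 j 1 (Or.inr rfl) hEa
    · rw [if_neg hE]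
      have h5 : fphi Φ w j 0 = 0 := by
        unfold fphi; rw [dif_neg]; exact fun h6 => hE ⟨0, Or.inl rfl, h6⟩
      have h6 : fphi Φ w j 1 = 0 := by
        unfold fphi; rw [dif_neg]; exact fun h7 => hE ⟨1, Or.inr rfl, h7⟩
      rw [h5, h6, add_zero, mul_zero]
  have h4 : (kk w : ℝ) * ∑ j, (fphi Φ w j 0 + fphi Φ w j 1) ≤ kk w * R := by
    rw [Finset.mul_sum]
    refine (Finset.sum_le_sum fun j _ => h3 j).trans (le_of_eq ?_)
    rw [← Finset.sum_filter, Finset.sum_const, nsmul_eq_mul]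
    rfl
  rcases Nat.eq_zero_or_pos (kk w) with h5 | h5
  · have h6 : ∀ j, ¬ Ext w j := by
      intro j hj
      have h5' := h5
      unfold kk at h5'
      rw [Finset.card_eq_zero] at h5'
      have : j ∈ Finset.univ.filter (Ext w) := Finset.mem_filter.2 ⟨Finset.mem_univ _, hj⟩
      rw [h5'] at this
      simp at this
    have h7 : ∑ j, (fphi Φ w j 0 + fphi Φ w j 1) = 0 := by
      refine Finset.sum_eq_zero fun j _ => ?_
      have h8 : fphi Φ w j 0 = 0 := by
        unfold fphi; rw [dif_neg]; exact fun h9 => h6 j ⟨0, Or.inl rfl, h9⟩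
      have h9 : fphi Φ w j 1 = 0 := by
        unfold fphi; rw [dif_neg]; exact fun h9 => h6 j ⟨1, Or.inr rfl, h9⟩
      rw [h8, h9, add_zero]
    rw [h7]; exact h0 h5
  · have h6 : (0:ℝ) < kk w := by exact_mod_cast h5
    exact le_of_mul_le_mul_left h4 h6

/-- **General lift.** A weight `Φ` of the simplices of `I_m`, a weight `Ψ` of the simplices of
`I_{m+1}` that dominates the volume and the weights of the exterior facets. -/
theorem lift_gen {W : Fin N → Fin (m+2) → Fin (m+1) → ℝ} (hW : IsCover W)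
    (hv : IsVertexFamily W) {Φ : (Fin (m+1) → Fin m → ℝ) → ℝ}
    {Ψ : (Fin (m+2) → Fin (m+1) → ℝ) → ℝ} {c Om : ℝ} (hc : 0 ≤ c)
    (hP : ∀ w : Fin (m+2) → Fin (m+1) → ℝ, AffineIndependent ℝ w →
      (∀ i j, w i j = 0 ∨ w i j = 1) →
      c * vdet w + ∑ j, (fphi Φ w j 0 + fphi Φ w j 1) ≤ Ψ w)
    (hT : ∀ (N' : ℕ) (W' : Fin N' → Fin (m+1) → Fin m → ℝ), IsCover W' → IsVertexFamily W' →
      (IsDissection W → IsDissection W') → Om ≤ ∑ s, Φ (W' s)) :
    c * (m+1).factorial + 2 * (m+1) * Om ≤ ∑ s, Ψ (W s) := by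
  have hvol : ((m+1).factorial : ℝ) ≤ ∑ s, vdet (W s) := by
    have h1 : (1 : ENNReal) ≤ ∑ s, ENNReal.ofReal (vdet (W s) / (m+1).factorial) := by
      rw [← volume_cube (m+1), ← hW.2]
      refine (measure_iUnion_le _).trans ?_
      rw [tsum_fintype]
      exact Finset.sum_le_sum fun s _ => (volume_body _).le
    rw [← ENNReal.ofReal_sum_of_nonneg (fun s _ => div_nonneg (vdet_nonneg _) (by positivity)),
      ENNReal.one_le_ofReal, ← Finset.sum_div, le_div_iff₀ (by positivity), one_mul] at h1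
    exact h1
  have hfac : ∀ j a, (a = 0 ∨ a = 1) → Om ≤ ∑ s, fphi Φ (W s) j a := by
    intro j a ha
    obtain ⟨N', W', h1, h2, h3, h4⟩ := exists_facet hW hv j ha Φ
    rw [← h4]
    exact hT N' W' h1 h2 h3
  have hsum : c * ∑ s, vdet (W s) + ∑ s, ∑ j, (fphi Φ (W s) j 0 + fphi Φ (W s) j 1) ≤
      ∑ s, Ψ (W s) := by
    rw [Finset.mul_sum, ← Finset.sum_add_distrib]
    exact Finset.sum_le_sum fun s _ => hP (W s) (hW.1 s) (hv s)
  have hswap : ∑ s, ∑ j, (fphi Φ (W s) j 0 + fphi Φ (W s) j 1)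
      = ∑ j, (∑ s, fphi Φ (W s) j 0 + ∑ s, fphi Φ (W s) j 1) := by
    rw [Finset.sum_comm]
    exact Finset.sum_congr rfl fun j _ => Finset.sum_add_distrib
  have h2 : 2 * ((m : ℝ) + 1) * Om ≤ ∑ s, ∑ j, (fphi Φ (W s) j 0 + fphi Φ (W s) j 1) := by
    rw [hswap]
    have h3 : ∑ _j : Fin (m+1), (Om + Om) ≤
        ∑ j, (∑ s, fphi Φ (W s) j 0 + ∑ s, fphi Φ (W s) j 1) :=
      Finset.sum_le_sum fun j _ => add_le_add (hfac j 0 (Or.inl rfl)) (hfac j 1 (Or.inr rfl))
    refine le_trans (le_of_eq ?_) h3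
    rw [Finset.sum_const, Finset.card_univ, Fintype.card_fin, nsmul_eq_mul]
    push_cast
    ring
  have h3 := mul_le_mul_of_nonneg_left hvol hc
  linarith

/-- **Lift for functions of the determinant and of the number of exterior facets.** `psi` at
level `m`, `phi` at level `m+1`. -/
theorem lift2 (hm : 1 ≤ m) {W : Fin N → Fin (m+2) → Fin (m+1) → ℝ} (hW : IsCover W)
    (hv : IsVertexFamily W) {V : ℕ → ℕ} (hV : ∀ i, maxDet i ≤ V i) (hVm : Monotone V)
    {psi phi : ℕ → ℕ → ℝ} {c Om : ℝ} (hc : 0 ≤ c)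
    (hB : ∀ δ k n : ℕ, 1 ≤ δ → δ ≤ V (m - n) → 1 ≤ k → k ≤ n + 1 → n ≤ m →
      c * δ + k * psi δ n ≤ phi δ k)
    (hB0 : ∀ δ : ℕ, 1 ≤ δ → δ ≤ V (m+1) → c * δ ≤ phi δ 0)
    (hA : ∀ (N' : ℕ) (W' : Fin N' → Fin (m+1) → Fin m → ℝ), IsCover W' → IsVertexFamily W' →
      (IsDissection W → IsDissection W') → Om ≤ ∑ s, psi (ndet (W' s)) (kk (W' s))) :
    c * (m+1).factorial + 2 * (m+1) * Om ≤ ∑ s, phi (ndet (W s)) (kk (W s)) := by
  classical
  refine lift_gen (Φ := fun T => psi (ndet T) (kk T)) (Ψ := fun S => phi (ndet S) (kk S)) hW hv hc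
    (fun w hw hv' => ?_) hA
  have h1 := one_le_ndet hw hv'
  have h2 := ndet_cast hv'
  have h3 : ∑ j, (fphi (fun T => psi (ndet T) (kk T)) w j 0 +
      fphi (fun T => psi (ndet T) (kk T)) w j 1) ≤ phi (ndet w) (kk w) - c * vdet w := by
    refine sum_fphi_le' hm (fun j a ha hE => ?_) (fun h0 => ?_)
    · unfold fphi
      rw [dif_pos hE]
      have h4 : ndet (rem w hE.choose j) = ndet w := by
        unfold ndet
        rw [vdet_eq_rem hw hv' ha hE.choose_spec]
      have h5 : ndet w ≤ V (m - kk (rem w hE.choose j)) := by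
        rw [← h4]
        exact ndet_le hV hVm fun _ _ => hv' _ _
      have h6 : 1 ≤ kk w := by
        unfold kk
        refine Finset.card_pos.2 ⟨j, Finset.mem_filter.2 ⟨Finset.mem_univ _, a, ha, hE⟩⟩
      have h7 := hB (ndet w) (kk w) (kk (rem w hE.choose j)) h1 h5 h6 (kk_rem _ _ _) (kk_le _)
      rw [h2] at h7
      beta_reduce
      rw [h4]
      linarith
    · have h4 : ndet w ≤ V (m+1) := by
        have := ndet_le hV hVm hv'
        rw [h0] at this
        exact this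
      have h5 := hB0 (ndet w) h1 h4
      rw [h2] at h5
      rw [h0]
      linarith
  linarith

/-- base of the iteration -/
theorem base_of_le {d : ℕ} {W : Fin N → Fin (d+1) → Fin d → ℝ} (hW : IsCover W)
    (hv : IsVertexFamily W) {psi : ℕ → ℕ → ℝ} {Φ : (Fin (d+1) → Fin d → ℝ) → ℝ}
    {lam mu Tot : ℝ} (hlam : 0 ≤ lam) (hmu : 0 ≤ mu)
    (hp : ∀ w : Fin (d+1) → Fin d → ℝ, AffineIndependent ℝ w → (∀ i j, w i j = 0 ∨ w i j = 1) →
      lam * Φ w + mu * vdet w ≤ psi (ndet w) (kk w))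
    (hT : Tot ≤ ∑ s, Φ (W s)) :
    lam * Tot + mu * d.factorial ≤ ∑ s, psi (ndet (W s)) (kk (W s)) := by
  have hvol : (d.factorial : ℝ) ≤ ∑ s, vdet (W s) := by
    have h1 : (1 : ENNReal) ≤ ∑ s, ENNReal.ofReal (vdet (W s) / d.factorial) := by
      rw [← volume_cube d, ← hW.2]
      refine (measure_iUnion_le _).trans ?_
      rw [tsum_fintype]
      exact Finset.sum_le_sum fun s _ => (volume_body _).le
    rw [← ENNReal.ofReal_sum_of_nonneg (fun s _ => div_nonneg (vdet_nonneg _) (by positivity)),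
      ENNReal.one_le_ofReal, ← Finset.sum_div, le_div_iff₀ (by positivity), one_mul] at h1
    exact h1
  calc lam * Tot + mu * d.factorial ≤ lam * ∑ s, Φ (W s) + mu * ∑ s, vdet (W s) :=
        add_le_add (mul_le_mul_of_nonneg_left hT hlam) (mul_le_mul_of_nonneg_left hvol hmu)
    _ = ∑ s, (lam * Φ (W s) + mu * vdet (W s)) := by
        rw [Finset.mul_sum, Finset.mul_sum, ← Finset.sum_add_distrib]
    _ ≤ _ := Finset.sum_le_sum fun s _ => hp (W s) (hW.1 s) (hv s)

lemma maxDet_eight : maxDet 8 ≤ 76 := maxDet_le_of _ _ (by norm_num)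
lemma maxDet_nine : maxDet 9 ≤ 195 := maxDet_le_of _ _ (by norm_num)
lemma maxDet_ten : maxDet 10 ≤ 521 := maxDet_le_of _ _ (by norm_num)
lemma maxDet_eleven : maxDet 11 ≤ 1458 := maxDet_le_of _ _ (by norm_num)
lemma maxDet_twelve : maxDet 12 ≤ 4248 := maxDet_le_of _ _ (by norm_num)

end Helper67.BS
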